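import Mathlib

namespace Pool.Agent.Results.MP_85e029_nt.Fails

open Complex Finset

def spec (m : ℕ) (q : ℂ) : Set ℂ :=
  {z | ∃ (n : ℕ) (a : ℕ → ℕ), (∀ j, a j ≤ m) ∧ z = ∑ j ∈ range (n + 1), (a j : ℂ) * q ^ j}

lemma horner (q : ℂ) (n : ℕ) (a : ℕ → ℕ) :
    ∑ j ∈ range (n + 1), (a j : ℂ) * q ^ j =
      q * ∑ j ∈ range n, (a (j + 1) : ℂ) * q ^ j + a 0 := by
  rw [sum_range_succ', mul_sum]
  congr 1
  · exact sum_congr rfl (fun j _ => by ring)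
  · simp

lemma arith (x y : ℤ) (a : ℕ) (ha : a ≤ 5) (h : 4 < (x + 2) ^ 2 + (y - 1) ^ 2) :
    4 < (2 * x - y + a + 2) ^ 2 + (x + 2 * y - 1) ^ 2 := by
  by_contra hc
  push Not at hc
  have h1 : 2 * x - y + a + 2 ≤ 2 := by nlinarith [sq_nonneg (x + 2 * y - 1)]
  have h2 : -2 ≤ 2 * x - y + a + 2 := by nlinarith [sq_nonneg (x + 2 * y - 1)]
  have h3 : x + 2 * y - 1 ≤ 2 := by nlinarith [sq_nonneg (2 * x - y + a + 2)]
  have h4 : -2 ≤ x + 2 * y - 1 := by nlinarith [sq_nonneg (2 * x - y + a + 2)]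
  have h5 : -5 ≤ x := by omega
  have h6 : x ≤ 1 := by omega
  have h7 : -1 ≤ y := by omega
  have h8 : y ≤ 4 := by omega
  interval_cases x <;> interval_cases y <;> interval_cases a <;> simp_all

lemma base (n : ℕ) : ∀ (a : ℕ → ℕ), (∀ j, a j ≤ 5) → ∃ x y : ℤ,
    ∑ j ∈ range n, (a j : ℂ) * (2 + I) ^ j = x + y * I ∧ 4 < (x + 2) ^ 2 + (y - 1) ^ 2 := by
  induction n with
  | zero => intro a _; exact ⟨0, 0, by simp, by norm_num⟩
  | succ n ih =>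
    intro a ha
    obtain ⟨x, y, h1, h2⟩ := ih (fun j => a (j + 1)) (fun j => ha _)
    refine ⟨2 * x - y + a 0, x + 2 * y, ?_, arith x y (a 0) (ha 0) h2⟩
    rw [horner, h1]
    push_cast
    linear_combination (y : ℂ) * I_mul_I

lemma norm_g : (11 / 5 : ℝ) ≤ ‖(2 + I : ℂ)‖ := by
  apply le_of_sq_le_sq _ (norm_nonneg _)
  rw [Complex.sq_norm, Complex.normSq_apply]
  norm_num

lemma hole (k : ℕ) : ∃ c : ℂ, ∀ (n : ℕ) (a : ℕ → ℕ), (∀ j, a j ≤ 5) →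
    11 / 5 + (k : ℝ) / 10 < ‖∑ j ∈ range n, (a j : ℂ) * (2 + I) ^ j - c‖ := by
  induction k with
  | zero =>
    refine ⟨-2 + I, fun n a ha => ?_⟩
    obtain ⟨x, y, h1, h2⟩ := base n a ha
    rw [h1]
    apply lt_of_pow_lt_pow_left₀ 2 (norm_nonneg _)
    rw [Complex.sq_norm, Complex.normSq_apply]
    have h3 : ((5 : ℤ) : ℝ) ≤ (((x + 2) ^ 2 + (y - 1) ^ 2 : ℤ) : ℝ) := by exact_mod_cast h2
    push_cast at h3
    simp
    nlinarith
  | succ k ih =>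
    obtain ⟨c, hc⟩ := ih
    have key : ∀ (w : ℂ) (b : ℕ), b ≤ 5 → 11 / 5 + (k : ℝ) / 10 < ‖w - c‖ →
        11 / 5 + ((k + 1 : ℕ) : ℝ) / 10 < ‖(2 + I) * w + b - ((2 + I) * c + 5 / 2)‖ := by
      intro w b hb hw
      have h1 : (2 + I) * w + b - ((2 + I) * c + 5 / 2) =
          (2 + I) * (w - c) - (((5 / 2 - b : ℝ)) : ℂ) := by push_cast; ring
      have h2 : ‖(((5 / 2 - b : ℝ)) : ℂ)‖ ≤ 5 / 2 := by
        rw [Complex.norm_real, Real.norm_eq_abs, abs_le]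
        have : (b : ℝ) ≤ 5 := by exact_mod_cast hb
        have : (0 : ℝ) ≤ b := Nat.cast_nonneg b
        constructor <;> linarith
      have h3 := norm_sub_norm_le ((2 + I) * (w - c)) (((5 / 2 - b : ℝ)) : ℂ)
      rw [norm_mul] at h3
      rw [h1]
      have h4 := norm_g
      have h5 : (0 : ℝ) ≤ k := Nat.cast_nonneg k
      push_cast
      push_cast at h2 h3
      nlinarith [mul_le_mul_of_nonneg_right h4 (norm_nonneg (w - c))]
    refine ⟨(2 + I) * c + 5 / 2, fun n a ha => ?_⟩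
    rcases n with _ | n
    · have := key 0 0 (by norm_num) (by simpa using hc 0 a ha)
      simpa using this
    · rw [horner]
      exact key _ _ (ha 0) (hc n (fun j => a (j + 1)) (fun j => ha _))

theorem result : ∃ (γ : ℂ) (m : ℕ), γ.im ≠ 0 ∧ 1 < ‖γ‖ ∧ 1 ≤ m ∧ ‖γ‖ ^ 2 - 1 < m ∧
    ∀ R : ℝ, 0 < R → ∃ c : ℂ, Disjoint (Metric.closedBall c R) (spec m γ) := by
  refine ⟨2 + I, 5, by simp, by linarith [norm_g], by norm_num, ?_, fun R _ => ?_⟩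
  · rw [Complex.sq_norm, Complex.normSq_apply]
    norm_num
  · obtain ⟨k, hk⟩ := exists_nat_ge (10 * R)
    obtain ⟨c, hc⟩ := hole k
    refine ⟨c, Set.disjoint_left.2 ?_⟩
    rintro z hz ⟨n, a, ha, rfl⟩
    rw [Metric.mem_closedBall, dist_eq_norm] at hz
    have := hc (n + 1) a ha
    linarith

end Pool.Agent.Results.MP_85e029_nt.Fails
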